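import Mathlib
import Pool.Agent.X85.LD

/-!
# Ergodic Lebesgue differentiation without a maximal inequality

If a Borel probability measure has the Lebesgue differentiation property, then for every measure
preserving map `T` and every `f ∈ L^p`, `p > 1`, the averages over small balls of the long ergodic
averages converge almost everywhere to `E(f | T-invariant sets)`.
-/

set_option autoImplicit false
open MeasureTheory Filter Topology
open scoped ENNReal

namespace Pool.Agent.Results.MP_894476_an.LebesgueSuffices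

/-- The Lebesgue differentiation property of `μ`. -/
def LebesgueDifferentiation {X : Type*} [MetricSpace X] [MeasurableSpace X] (μ : Measure X) : Prop :=
  ∀ f : X → ℝ, Integrable f μ → ∀ᵐ x ∂μ,
    Tendsto (fun r : ℝ => (μ.real (Metric.ball x r))⁻¹ * ∫ y in Metric.ball x r, f y ∂μ)
      (𝓝[>] 0) (𝓝 (f x))

/-- The averages `U_{r,k} f (x)`. -/
noncomputable def U {X : Type*} [MetricSpace X] [MeasurableSpace X] (μ : Measure X) (T : X → X)
    (f : X → ℝ) (r : ℝ) (k : ℕ) (x : X) : ℝ :=
  (μ.real (Metric.ball x r))⁻¹ *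
    ∫ y in Metric.ball x r, (k : ℝ)⁻¹ * ∑ j ∈ Finset.range k, f (T^[j] y) ∂μ

/-- Suppose that `μ` has the Lebesgue differentiation property. Then for every `μ`-preserving `T`,
every `p > 1` and every `f ∈ L^p(μ)`, for almost every `x`, `U_{r,k} f (x) → f^*(x)` as
`r → 0` and `k → ∞`. -/
theorem result {X : Type*} [MetricSpace X] [MeasurableSpace X] [BorelSpace X] (μ : Measure X)
    [IsProbabilityMeasure μ] (hμ : LebesgueDifferentiation μ) (T : X → X)
    (hT : MeasurePreserving T μ μ) (p : ℝ≥0∞) (hp : 1 < p) (f : X → ℝ) (hf : MemLp f p μ) :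
    ∀ᵐ x ∂μ, ∀ ε : ℝ, 0 < ε → ∃ δ : ℝ, 0 < δ ∧ ∃ K : ℕ, ∀ (r : ℝ) (k : ℕ), 0 < r → r < δ → K ≤ k →
      |U μ T f r k x - (μ[f | MeasurableSpace.invariants T]) x| < ε :=
  Pool.Agent.X85.Max.main hμ hT hp hf

end Pool.Agent.Results.MP_894476_an.LebesgueSuffices
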